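import Pool.Agent.MWKP.Stmts

/-!
# MWKP, row ADJ: adjusting the residues
-/

set_option autoImplicit false

namespace Pool.Agent.MWKP.H59

open Pool.Agent.Helper14_MV Pool.Agent.Helper2_MV Pool.Agent.MWK Pool.Agent.MWKP

theorem pw_single (j x : ℕ) : pw j [x] = List.replicate j x := by
  unfold pw
  induction j with
  | zero => rfl
  | succ j ih => rw [List.replicate_succ, List.flatten_cons, ih, List.replicate_succ]; rfl

theorem pre_cons_ne {t y : ℕ} (h : t ≠ y) (B : List ℕ) : pre (y :: B) t = y :: pre B t := by
  have h1 : t ∉ [y] := by simpa using h
  exact pre_append h1 B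

/-- effect of the residue move on the numbers before walls -/
theorem pre_move {P Q : List ℕ} {x y j j' : ℕ} (hy : y ∉ P) (hx : x ∈ P) (t z : ℕ) :
    (pre (P ++ List.replicate j x ++ y :: (List.replicate j' x ++ Q)) t).count z =
      (pre (P ++ y :: Q) t).count z +
        (if z = x then (if t ∈ P then 0 else if t = y then j else j + j') else 0) := by
  have hxy : x ≠ y := by
    rintro rfl
    exact hy hx
  by_cases htP : t ∈ P
  · rw [List.append_assoc, pre_append_mem htP, pre_append_mem htP, if_pos htP]
    simp
  · rw [List.append_assoc, pre_append htP, pre_append htP, if_neg htP]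
    by_cases hty : t = y
    · subst hty
      have h1 : t ∉ List.replicate j x := fun h => hxy (List.eq_of_mem_replicate h).symm
      rw [pre_split h1, pre_cons_self, if_pos rfl, List.append_nil, List.count_append,
        List.count_replicate]
      by_cases hz : z = x
      · subst hz
        simp
      · have hz' : (x == z) = false := by
          simpa using Ne.symm hz
        rw [hz', if_neg hz]
        simp
    · have htx : t ≠ x := by
        rintro rfl
        exact htP hx
      have h1 : t ∉ List.replicate j x := fun h => htx (List.eq_of_mem_replicate h)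
      have h2 : t ∉ List.replicate j' x := fun h => htx (List.eq_of_mem_replicate h)
      rw [pre_append h1, pre_cons_ne hty, pre_cons_ne hty, pre_append h2, if_neg hty]
      simp only [List.count_append, List.count_cons, List.count_replicate]
      by_cases hz : z = x
      · subst hz
        simp
        omega
      · have hz' : (x == z) = false := by
          simpa using Ne.symm hz
        rw [hz', if_neg hz]
        simp

theorem modeq_add_mul (n a j : ℕ) : a + n * j ≡ a [MOD n] := by
  unfold Nat.ModEq
  exact Nat.add_mul_mod_self_left a n j

theorem modeq_fix {n : ℕ} (hn : 1 ≤ n) (a b : ℕ) : a + (n - 1) * df n a b ≡ b [MOD n] := by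
  obtain ⟨m, rfl⟩ : ∃ m, n = m + 1 := ⟨n - 1, by omega⟩
  unfold df
  rw [Nat.add_sub_cancel, Nat.modEq_iff_dvd]
  refine ⟨-(a : ℤ) + (1 - (m : ℤ)) * b, ?_⟩
  push_cast
  ring

theorem df_congr {n a a' b : ℕ} (h : a' ≡ a [MOD n]) : df n a' b ≡ df n a b [MOD n] := by
  unfold df
  exact Nat.ModEq.add_right _ h

theorem df_fix {n : ℕ} (hn : 1 ≤ n) (a b : ℕ) :
    df n (a + (n - 1) * df n a b) b = n * df n a b := by
  obtain ⟨m, rfl⟩ : ∃ m, n = m + 1 := ⟨n - 1, by omega⟩
  unfold df
  rw [Nat.add_sub_cancel]
  ring

theorem sum_fix {n : ℕ} (hn : 1 ≤ n) (j : ℕ) : j + (n - 1) * j = n * j := by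
  obtain ⟨m, rfl⟩ : ∃ m, n = m + 1 := ⟨n - 1, by omega⟩
  rw [Nat.add_sub_cancel]
  ring

/-- the numbers are equal or both at least two -/
theorem eq_or_two {a b : ℕ} (h : ∀ i ≤ 1, (i + 1 ≤ a ↔ i + 1 ≤ b)) : a = b ∨ (2 ≤ a ∧ 2 ≤ b) := by
  have h0 := h 0 (by omega)
  have h1 := h 1 (by omega)
  omega

/-- the walls -/
theorem walls (hRMN : RmnStmt) (hWRA : WraStmt) (n : ℕ) (θ : FIC) (hK : Kn n θ) (M : ℕ)
    (v : List ℕ) : ∀ (N : ℕ) (u : List ℕ), Ag (FF M v) u v →
    (∀ x, WT (df n (u.count x) (v.count x)) θ) →
    (∀ k y x, k < M → Dp (k + 1) v y → WR k (df n ((pre u y).count x) ((pre v y).count x)) θ) →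
    (∀ T : Finset (ℕ × ℕ), (∀ p ∈ T, p.1 ∈ v ∧ p.2 ∈ v ∧ Dp M v p.2 ∧
      ¬ (pre u p.2).count p.1 ≡ (pre v p.2).count p.1 [MOD n]) → T.card ≤ N) →
    ∃ u', RR θ u u' ∧ Ag (FF M v) u' v ∧ (∀ x, WT (df n (u'.count x) (v.count x)) θ) ∧
      ∀ y x, Dp M v y → (pre u' y).count x ≡ (pre v y).count x [MOD n] := by
  intro N
  induction N with
  | zero =>
    intro u hA hT _ hN
    refine ⟨u, RR.refl _, hA, hT, ?_⟩
    intro y x hy
    by_contra hc
    have hyv : y ∈ v := hy.mem
    have hxv : x ∈ v := by
      by_contra hx
      have hxu : x ∉ u := fun h => hx ((hA.mem x).1 h)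
      apply hc
      rw [List.count_eq_zero_of_not_mem fun h => hx (mem_of_mem_pre h),
        List.count_eq_zero_of_not_mem fun h => hxu (mem_of_mem_pre h)]
    have h := hN {(x, y)} (by
      intro p hp
      rw [Finset.mem_singleton] at hp
      subst hp
      exact ⟨hxv, hyv, hy, hc⟩)
    simp at h
  | succ N ih =>
    intro u hA hT hW hN
    by_cases hbad : ∃ y x, Dp M v y ∧ ¬ (pre u y).count x ≡ (pre v y).count x [MOD n]
    · obtain ⟨y, x, hy, hc⟩ := hbad
      have hn := hK.pos
      have hyv : y ∈ v := hy.mem
      have hyu : y ∈ u := (hA.mem y).2 hyv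
      obtain ⟨ha2, hb2⟩ : 2 ≤ (pre u y).count x ∧ 2 ≤ (pre v y).count x := by
        rcases eq_or_two (fun i hi => hA.2 y x i hi hy) with h | h
        · exact absurd (by rw [h]) hc
        · exact h
      have hxv : x ∈ v := mem_of_mem_pre
        (List.count_pos_iff.1 (by omega : 0 < (pre v y).count x))
      -- the least level
      obtain ⟨k, hkM, hk1, hk2⟩ : ∃ k, k < M ∧ Dp (k + 1) v y ∧ ¬ Dp k v y := by
        classical
        have hex : ∃ k, Dp k v y := ⟨M, hy⟩
        have h0 : Nat.find hex ≠ 0 := by
          intro h0
          have h1 := Nat.find_spec hex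
          rw [h0] at h1
          exact h1
        obtain ⟨k, hk⟩ := Nat.exists_eq_succ_of_ne_zero h0
        refine ⟨k, ?_, ?_, ?_⟩
        · have h1 := Nat.find_min' hex hy
          omega
        · have h1 := Nat.find_spec hex
          rw [hk] at h1
          exact h1
        · exact Nat.find_min hex (by omega)
      have hku : ¬ Dp k u y := fun h => hk2 ((T.dag M u v hA k (by omega) y).1 h)
      obtain ⟨Q, hQ⟩ := mem_split hyu
      have hyP := not_mem_pre u y
      set P := pre u y with hP
      set a := P.count x with ha
      set b := (pre v y).count x with hb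
      obtain ⟨_, wr2, wr3, _, wt2, _⟩ := hWRA n θ hK
      have hWk : WR k ((n - 1) * df n a b) θ := wr3 k (n - 1) _ (hW k y x hkM hk1)
      set j := (n - 1) * df n a b with hj
      have hxP : x ∈ P := List.count_pos_iff.1 (by omega)
      have hR := hRMN n θ hK k j P Q x y hWk hyP (by rw [← hQ]; exact hku) ha2
      rw [← hQ] at hR
      set u1 := P ++ List.replicate j x ++ y :: (List.replicate ((n - 1) * j) x ++ Q) with hu1
      have hpre : ∀ t z, (pre u1 t).count z = (pre u t).count z +
          (if z = x then (if t ∈ P then 0 else if t = y then j else n * j) else 0) := by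
        intro t z
        have h := pre_move (Q := Q) (j := j) (j' := (n - 1) * j) hyP hxP t z
        rw [← hu1, ← hQ, sum_fix hn] at h
        exact h
      have hcnt : ∀ z, u1.count z = u.count z + (if z = x then n * j else 0) := by
        intro z
        have h3 : u.count z = P.count z + ([y].count z + Q.count z) := by
          conv_lhs => rw [hQ]
          rw [List.count_append]
          congr 1
          rw [← List.count_append]
          rfl
        have h4 : u1.count z = P.count z + (List.replicate j x).count z +
            ([y].count z + ((List.replicate ((n - 1) * j) x).count z + Q.count z)) := by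
          rw [hu1, List.count_append, List.count_append, ← List.count_append (l₁ := List.replicate ((n - 1) * j) x),
            ← List.count_append (l₁ := [y])]
          rfl
        rw [h3, h4, List.count_replicate, List.count_replicate]
        by_cases hz : z = x
        · subst hz
          have h5 := sum_fix hn j
          simp
          omega
        · have hz' : (x == z) = false := by
            simpa using Ne.symm hz
          rw [hz', if_neg hz]
          simp
      have hux : 2 ≤ u.count x := ha2.trans (by rw [ha, hP]; exact count_pre_le u x y)
      have hvx : 2 ≤ v.count x := hb2.trans (by rw [hb]; exact count_pre_le v x y)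
      have hA1 : Ag (FF M v) u1 v := by
        refine ⟨?_, ?_⟩
        · intro z i hi
          rw [hcnt z]
          by_cases hz : z = x
          · subst hz
            rw [if_pos rfl]
            constructor
            · intro _
              omega
            · intro _
              omega
          · rw [if_neg hz, add_zero]
            exact hA.1 z i hi
        · intro t z i hi ht
          rw [hpre t z]
          by_cases hz : z = x
          · subst hz
            rw [if_pos rfl]
            by_cases htP : t ∈ P
            · rw [if_pos htP, add_zero]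
              exact hA.2 t z i hi ht
            · have h1 : 2 ≤ (pre u t).count z := by
                by_cases hty : t = y
                · subst hty
                  exact ha2
                · have h2 : y ∈ pre u t := by
                    rcases pre_total hyu (Ne.symm hty) with h2 | h2
                    · exact h2
                    · exact absurd h2 htP
                  exact ha2.trans (count_pre_mono h2 z)
              have h3 : 2 ≤ (pre v t).count z := (hA.2 t z 1 le_rfl ht).1 h1
              constructor
              · intro _
                omega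
              · intro _
                omega
          · rw [if_neg hz, add_zero]
            exact hA.2 t z i hi ht
      have hT1 : ∀ z, WT (df n (u1.count z) (v.count z)) θ := by
        intro z
        refine wt2 _ _ (Nat.ModEq.symm (df_congr ?_)) (hT z)
        rw [hcnt z]
        by_cases hz : z = x
        · rw [if_pos hz]
          exact modeq_add_mul _ _ _
        · rw [if_neg hz, add_zero]
      -- other pairs
      have hother : ∀ t z, ¬ (z = x ∧ t = y) → (pre u1 t).count z ≡ (pre u t).count z [MOD n] := by
        intro t z h
        rw [hpre t z]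
        by_cases hz : z = x
        · rw [if_pos hz]
          by_cases htP : t ∈ P
          · rw [if_pos htP, add_zero]
          · rw [if_neg htP]
            by_cases hty : t = y
            · exact absurd ⟨hz, hty⟩ h
            · rw [if_neg hty]
              exact modeq_add_mul _ _ _
        · rw [if_neg hz, add_zero]
      have hxy : (pre u1 y).count x = a + j := by
        rw [hpre y x, if_pos rfl, if_neg hyP, if_pos rfl]
      have hW1 : ∀ k' t z, k' < M → Dp (k' + 1) v t →
          WR k' (df n ((pre u1 t).count z) ((pre v t).count z)) θ := by
        intro k' t z hk' ht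
        by_cases h : z = x ∧ t = y
        · obtain ⟨rfl, rfl⟩ := h
          rw [hxy, ← hb, hj, df_fix hn]
          exact wr3 k' n _ (hW k' t z hk' ht)
        · exact wr2 k' _ _ (Nat.ModEq.symm (df_congr (hother t z h))) (hW k' t z hk' ht)
      obtain ⟨u', h1, h2, h3, h4⟩ := ih u1 hA1 hT1 hW1 (by
        intro T hTp
        have hnot : (x, y) ∉ T := by
          intro h
          have h5 := (hTp _ h).2.2.2
          apply h5
          show (pre u1 y).count x ≡ (pre v y).count x [MOD n]
          rw [hxy, ← hb, hj]
          exact modeq_fix hn a b
        have h6 := hN (insert (x, y) T) (by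
          intro p hp
          rcases Finset.mem_insert.1 hp with rfl | hp
          · exact ⟨hxv, hyv, hy, hc⟩
          · obtain ⟨q1, q2, q3, q4⟩ := hTp p hp
            refine ⟨q1, q2, q3, fun h => q4 ?_⟩
            refine (hother p.2 p.1 ?_).trans h
            rintro ⟨e1, e2⟩
            apply hnot
            have : p = (x, y) := Prod.ext e1 e2
            rw [← this]
            exact hp)
        rw [Finset.card_insert_of_notMem hnot] at h6
        omega)
      exact ⟨u', θ.trans hR h1, h2, h3, h4⟩
    · push Not at hbad
      exact ⟨u, RR.refl _, hA, hT, fun y x hy => hbad y x hy⟩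

/-- the totals -/
theorem totals (hWRA : WraStmt) (n : ℕ) (θ : FIC) (hK : Kn n θ) (M : ℕ)
    (v : List ℕ) : ∀ (N : ℕ) (u : List ℕ), Ag (FF M v) u v →
    (∀ x, WT (df n (u.count x) (v.count x)) θ) →
    (∀ y x, Dp M v y → (pre u y).count x ≡ (pre v y).count x [MOD n]) →
    (∀ T : Finset ℕ, (∀ x ∈ T, x ∈ v ∧ ¬ u.count x ≡ v.count x [MOD n]) → T.card ≤ N) →
    ∃ u', RR θ u u' ∧ Ag (FF M v) u' v ∧ Rz n M u' v := by
  intro N
  induction N with
  | zero =>
    intro u hA _ hW hN
    refine ⟨u, RR.refl _, hA, ?_, hW⟩
    intro x
    by_contra hc
    have hxv : x ∈ v := by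
      by_contra hx
      have hxu : x ∉ u := fun h => hx ((hA.mem x).1 h)
      apply hc
      rw [List.count_eq_zero_of_not_mem hx, List.count_eq_zero_of_not_mem hxu]
    have h := hN {x} (by
      intro p hp
      rw [Finset.mem_singleton] at hp
      subst hp
      exact ⟨hxv, hc⟩)
    simp at h
  | succ N ih =>
    intro u hA hT hW hN
    by_cases hbad : ∃ x, ¬ u.count x ≡ v.count x [MOD n]
    · obtain ⟨x, hc⟩ := hbad
      have hn := hK.pos
      obtain ⟨ha2, hb2⟩ : 2 ≤ u.count x ∧ 2 ≤ v.count x := by
        rcases eq_or_two (fun i hi => hA.1 x i hi) with h | h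
        · exact absurd (by rw [h]) hc
        · exact h
      have hxv : x ∈ v := List.count_pos_iff.1 (by omega)
      obtain ⟨_, _, _, _, _, wt3⟩ := hWRA n θ hK
      set a := u.count x with ha
      set b := v.count x with hb
      have hWj : WT ((n - 1) * df n a b) θ := wt3 (n - 1) _ (hT x)
      set j := (n - 1) * df n a b with hj
      have hR : RR θ (u ++ List.replicate j x) u := by
        have h := hWj u [x] [] (by
          intro l hl
          rw [List.mem_singleton] at hl
          subst hl
          exact ha2)
        rw [pw_single, List.append_nil, List.append_nil] at h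
        exact h
      have hcnt : ∀ z, (u ++ List.replicate j x).count z = u.count z + (if z = x then j else 0) := by
        intro z
        rw [List.count_append, List.count_replicate]
        by_cases hz : z = x
        · subst hz
          simp
        · have hz' : (x == z) = false := by
            simpa using Ne.symm hz
          rw [hz', if_neg hz]
          simp
      have hpre : ∀ t, Dp M v t → pre (u ++ List.replicate j x) t = pre u t := by
        intro t ht
        exact pre_append_mem ((hA.mem t).2 ht.mem) _
      have hA1 : Ag (FF M v) (u ++ List.replicate j x) v := by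
        refine ⟨?_, ?_⟩
        · intro z i hi
          rw [hcnt z]
          by_cases hz : z = x
          · subst hz
            rw [if_pos rfl]
            constructor
            · intro _
              omega
            · intro _
              omega
          · rw [if_neg hz, add_zero]
            exact hA.1 z i hi
        · intro t z i hi ht
          rw [hpre t ht]
          exact hA.2 t z i hi ht
      have hxa : (u ++ List.replicate j x).count x = a + j := by
        rw [hcnt x, if_pos rfl]
      have hT1 : ∀ z, WT (df n ((u ++ List.replicate j x).count z) (v.count z)) θ := by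
        intro z
        by_cases hz : z = x
        · subst hz
          rw [hxa, ← hb, hj, df_fix hn]
          exact wt3 n _ (hT z)
        · rw [hcnt z, if_neg hz, add_zero]
          exact hT z
      obtain ⟨u', h1, h2, h3⟩ := ih (u ++ List.replicate j x) hA1 hT1 (by
        intro t z ht
        rw [hpre t ht]
        exact hW t z ht) (by
        intro T hTp
        have hnot : x ∉ T := by
          intro h
          apply (hTp _ h).2
          rw [hxa, ← hb, hj]
          exact modeq_fix hn a b
        have h6 := hN (insert x T) (by
          intro p hp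
          rcases Finset.mem_insert.1 hp with rfl | hp'
          · exact ⟨hxv, hc⟩
          · obtain ⟨q1, q2⟩ := hTp p hp'
            refine ⟨q1, fun h => q2 ?_⟩
            have hpx : p ≠ x := by
              rintro rfl
              exact hnot hp'
            rw [hcnt p, if_neg hpx, add_zero]
            exact h)
        rw [Finset.card_insert_of_notMem hnot] at h6
        omega)
      exact ⟨u', θ.trans hR.symm h1, h2, h3⟩
    · push Not at hbad
      exact ⟨u, RR.refl _, hA, hbad, hW⟩

theorem adj (_hKDD : KddStmt) (hWRA : WraStmt) (hRMN : RmnStmt) : AdjStmt := by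
  intro n θ hK M u v hA hT hW
  obtain ⟨u1, h1, h2, h3, h4⟩ := walls hRMN hWRA n θ hK M v
    ((v.toFinset ×ˢ v.toFinset).card) u hA hT hW (by
      intro T hTp
      apply Finset.card_le_card
      intro p hp
      obtain ⟨q1, q2, _, _⟩ := hTp p hp
      rw [Finset.mem_product, List.mem_toFinset, List.mem_toFinset]
      exact ⟨q1, q2⟩)
  obtain ⟨u2, h5, h6, h7⟩ := totals hWRA n θ hK M v v.toFinset.card u1 h2 h3 h4 (by
      intro T hTp
      apply Finset.card_le_card
      intro p hp
      rw [List.mem_toFinset]
      exact (hTp p hp).1)
  exact ⟨u2, θ.trans h1 h5, h6, h7⟩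

end Pool.Agent.MWKP.H59
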